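import Pool.Agent.R291.NonPoor

/-!
MP_78c350_an.  A negative answer to Q1 in ZFC: there is a free filter on `ℕ` which is neither poor
nor conglomerated.
-/

namespace Pool.Agent.Results.MP_78c350_an.NeitherPoorNorConglomerated

open Pool.Agent.R291

/-- There is a free filter on `ℕ` which is neither poor nor conglomerated. -/
theorem result : ∃ F : Filter ℕ, IsFree F ∧ ¬ IsPoor F ∧ ¬ IsConglomerated F :=
  exists_not_poor_not_conglomerated

end Pool.Agent.Results.MP_78c350_an.NeitherPoorNorConglomerated
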